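import Mathlib.Combinatorics.SimpleGraph.Maps
import Mathlib.Data.Fintype.Perm
import Mathlib.Data.Fintype.Prod
import Mathlib.Tactic

/-!
# Repeated paint costs before the frugal distinguishing number

The graph `tk` below is the truncated complete graph `K_7`: its vertices are the `42` arcs
`(i, j)`, `i ≠ j`, of `K_7`; two arcs are adjacent when they have the same tail or are reverses of
each other. We show `D = 2`, `ρ² = ρ³ = 4`, `ρ⁴ = 3 = Fix` and `F = 4`.
-/

namespace Pool.Agent.Results.MP_8484b9_co.TruncatedK7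

open SimpleGraph Finset

variable {V : Type}

/-- `c` is a distinguishing colouring: only the identity automorphism preserves every colour
class. -/
def IsDistinguishing (G : SimpleGraph V) {d : ℕ} (c : V → Fin d) : Prop :=
  ∀ φ : G ≃g G, (∀ v, c (φ v) = c v) → ∀ v, φ v = v

/-- The distinguishing number `D(G)`. -/
noncomputable def distNumber (G : SimpleGraph V) : ℕ :=
  sInf {d | ∃ c : V → Fin d, IsDistinguishing G c}

/-- `S` is a fixing set: only the identity automorphism fixes every vertex of `S`. -/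
def IsFixing (G : SimpleGraph V) (S : Finset V) : Prop :=
  ∀ φ : G ≃g G, (∀ v ∈ S, φ v = v) → ∀ v, φ v = v

/-- The fixing number `Fix(G)`. -/
noncomputable def fixNumber (G : SimpleGraph V) : ℕ :=
  sInf {m | ∃ S : Finset V, IsFixing G S ∧ S.card = m}

/-- The paint cost `ρ^d(G)`: the least number of vertices outside a colour class, over all
colour classes of all `d`-distinguishing colourings. -/
noncomputable def paintCost [Fintype V] (G : SimpleGraph V) (d : ℕ) : ℕ :=
  sInf {m | ∃ (c : V → Fin d) (i : Fin d), IsDistinguishing G c ∧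
    (univ.filter (fun v => c v ≠ i)).card = m}

/-- The frugal distinguishing number `F(G)`: the least `d ≥ D(G)` with `ρ^d(G) = Fix(G)`. -/
noncomputable def frugalNumber [Fintype V] (G : SimpleGraph V) : ℕ :=
  sInf {d | distNumber G ≤ d ∧ paintCost G d = fixNumber G}

/-- The arcs of `K_7`. -/
abbrev Arc : Type := {p : Fin 7 × Fin 7 // p.1 ≠ p.2}

/-- the reverse arc. -/
def rev (p : Arc) : Arc := ⟨(p.1.2, p.1.1), p.2.symm⟩

/-- the truncated `K_7`. -/
def tk : SimpleGraph Arc where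
  Adj p q := p ≠ q ∧ (p.1.1 = q.1.1 ∨ q = rev p)
  symm := ⟨by
    rintro p q ⟨h, h' | h'⟩
    · exact ⟨h.symm, Or.inl h'.symm⟩
    · exact ⟨h.symm, Or.inr (by subst h'; rfl)⟩⟩
  loopless := ⟨by rintro p ⟨h, -⟩; exact h rfl⟩

theorem tk_adj {p q : Arc} : tk.Adj p q ↔ p ≠ q ∧ (p.1.1 = q.1.1 ∨ q = rev p) := Iff.rfl

theorem adj_rev (p : Arc) : tk.Adj p (rev p) := by
  refine ⟨?_, Or.inr rfl⟩
  intro h
  have := congrArg (fun x : Arc => x.1.1) h
  exact p.2 this

/-- an arc and its reverse have no common neighbour. -/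
theorem no_common (p r : Arc) (h1 : tk.Adj p r) (h2 : tk.Adj (rev p) r) : False := by
  obtain ⟨h1a, h1b⟩ := h1
  obtain ⟨h2a, h2b⟩ := h2
  rcases h1b with h1b | h1b
  · rcases h2b with h2b | h2b
    · have : p.1.2 = r.1.1 := h2b
      exact p.2 (h1b.trans this.symm)
    · exact h1a (by rw [h2b]; rfl)
  · exact h2a h1b.symm

/-- two distinct arcs with the same tail have a common neighbour. -/
theorem common_of_tail (p q : Arc) (h : p.1.1 = q.1.1) : ∃ r, tk.Adj p r ∧ tk.Adj q r := by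
  obtain ⟨⟨a, b⟩, hab⟩ := p
  obtain ⟨⟨a', c⟩, hac⟩ := q
  simp only at h hab hac
  subst h
  have key : ∀ a b c : Fin 7, ∃ x, x ≠ a ∧ x ≠ b ∧ x ≠ c := by decide
  obtain ⟨x, hx1, hx2, hx3⟩ := key a b c
  refine ⟨⟨(a, x), hx1.symm⟩, ⟨?_, Or.inl rfl⟩, ⟨?_, Or.inl rfl⟩⟩
  · intro h; simp only [Subtype.mk.injEq, Prod.mk.injEq, true_and] at h; exact hx2 h.symm
  · intro h; simp only [Subtype.mk.injEq, Prod.mk.injEq, true_and] at h; exact hx3 h.symm

theorem aut_tail (φ : tk ≃g tk) (p q : Arc) (h : p.1.1 = q.1.1) :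
    (φ p).1.1 = (φ q).1.1 := by
  by_cases hpq : p = q
  · rw [hpq]
  have hadj : tk.Adj p q := ⟨hpq, Or.inl h⟩
  obtain ⟨r, hr1, hr2⟩ := common_of_tail p q h
  have h1 := φ.map_adj_iff.mpr hadj
  have h2 := φ.map_adj_iff.mpr hr1
  have h3 := φ.map_adj_iff.mpr hr2
  rcases h1.2 with h4 | h4
  · exact h4
  · rw [h4] at h3
    exact (no_common _ _ h2 h3).elim

theorem aut_rev (φ : tk ≃g tk) (p : Arc) : φ (rev p) = rev (φ p) := by
  have h1 := φ.map_adj_iff.mpr (adj_rev p)
  rcases h1.2 with h4 | h4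
  · obtain ⟨r, hr1, hr2⟩ := common_of_tail _ _ h4
    obtain ⟨s, rfl⟩ := φ.surjective r
    exact (no_common _ _ (φ.map_adj_iff.mp hr1) (φ.map_adj_iff.mp hr2)).elim
  · exact h4

/-- every automorphism of the truncated `K_7` is induced by an injective map on the vertices. -/
theorem aut_form (φ : tk ≃g tk) : ∃ σ : Fin 7 → Fin 7, Function.Injective σ ∧
    ∀ p : Arc, (φ p).1 = (σ p.1.1, σ p.1.2) := by
  have key : ∀ a : Fin 7, ∃ x, a ≠ x := by decide
  choose f hf using key
  have h1 : ∀ p : Arc, (φ p).1.1 = (φ ⟨(p.1.1, f p.1.1), hf _⟩).1.1 := by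
    intro p
    exact aut_tail φ _ _ rfl
  have h2 : ∀ p : Arc, (φ p).1 = ((φ ⟨(p.1.1, f p.1.1), hf _⟩).1.1,
      (φ ⟨(p.1.2, f p.1.2), hf _⟩).1.1) := by
    intro p
    refine Prod.ext (h1 p) ?_
    have h3 := aut_rev φ p
    have h4 : (φ p).1.2 = (φ (rev p)).1.1 := by rw [h3]; rfl
    rw [h4, h1 (rev p)]
    rfl
  refine ⟨fun i => (φ ⟨(i, f i), hf i⟩).1.1, ?_, h2⟩
  intro a b hab
  by_contra hne
  have h3 := h2 ⟨(a, b), hne⟩
  simp only at hab h3
  have h4 := (φ ⟨(a, b), hne⟩).2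
  rw [h3] at h4
  exact h4 hab

/-- the automorphism induced by a permutation. -/
def ind (σ : Equiv.Perm (Fin 7)) : tk ≃g tk where
  toFun p := ⟨(σ p.1.1, σ p.1.2), fun h => p.2 (σ.injective h)⟩
  invFun p := ⟨(σ.symm p.1.1, σ.symm p.1.2), fun h => p.2 (σ.symm.injective h)⟩
  left_inv p := by simp
  right_inv p := by simp
  map_rel_iff' := by
    intro p q
    simp only [Equiv.coe_fn_mk, tk_adj, rev, ne_eq, Subtype.ext_iff, Prod.ext_iff,
      EmbeddingLike.apply_eq_iff_eq]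

theorem ind_apply (σ : Equiv.Perm (Fin 7)) (p : Arc) : (ind σ p).1 = (σ p.1.1, σ p.1.2) := rfl

theorem ind_ne (σ : Equiv.Perm (Fin 7)) (hσ : σ ≠ 1) : ∃ v, ind σ v ≠ v := by
  by_contra hcon
  push Not at hcon
  apply hσ
  ext i
  have key : ∀ a : Fin 7, ∃ x, a ≠ x := by decide
  obtain ⟨x, hx⟩ := key i
  have := congrArg (fun p : Arc => p.1.1) (hcon ⟨(i, x), hx⟩)
  simp only [ind_apply] at this
  simp [this]

/-- a set of at most two arcs misses two vertices. -/
theorem exists_two_missing (S : Finset Arc) (hS : S.card ≤ 2) :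
    ∃ x y : Fin 7, x ≠ y ∧ ∀ p ∈ S, p.1.1 ≠ x ∧ p.1.2 ≠ x ∧ p.1.1 ≠ y ∧ p.1.2 ≠ y := by
  classical
  set T : Finset (Fin 7) := S.image (fun p => p.1.1) ∪ S.image (fun p => p.1.2) with hT
  have h1 : T.card ≤ 4 := by
    calc T.card ≤ (S.image (fun p => p.1.1)).card + (S.image (fun p => p.1.2)).card :=
          card_union_le _ _
      _ ≤ S.card + S.card := Nat.add_le_add card_image_le card_image_le
      _ ≤ 4 := by omega
  have h2 : 1 < Tᶜ.card := by
    rw [card_compl, Fintype.card_fin]; omega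
  obtain ⟨x, hx, y, hy, hxy⟩ := one_lt_card.mp h2
  refine ⟨x, y, hxy, ?_⟩
  intro p hp
  rw [mem_compl, hT, mem_union, mem_image, mem_image] at hx hy
  push Not at hx hy
  exact ⟨hx.1 p hp, hx.2 p hp, hy.1 p hp, hy.2 p hp⟩

/-- if a permutation maps `S` into `S` and preserves colours on `S`, where all arcs outside `S`
have colour `i`, then its induced automorphism preserves the colouring. -/
theorem preserves {d : ℕ} (c : Arc → Fin d) (i : Fin d) (φ : tk ≃g tk)
    (h : ∀ p, c p ≠ i → c (φ p) = c p) : ∀ p, c (φ p) = c p := by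
  classical
  set S : Finset Arc := univ.filter (fun p => c p ≠ i) with hS
  have hmap : S.map φ.toEquiv.toEmbedding ⊆ S := by
    intro q hq
    rw [mem_map] at hq
    obtain ⟨p, hp, rfl⟩ := hq
    rw [hS, mem_filter] at hp ⊢
    refine ⟨mem_univ _, ?_⟩
    have := h p hp.2
    change c (φ p) ≠ i
    rw [this]; exact hp.2
  have heq : S.map φ.toEquiv.toEmbedding = S := eq_of_subset_of_card_le hmap (by rw [card_map])
  intro p
  by_cases hp : c p = i
  · by_contra hne
    have h1 : φ p ∈ S := by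
      rw [hS, mem_filter]
      exact ⟨mem_univ _, by rw [← hp]; exact hne⟩
    rw [← heq, mem_map] at h1
    obtain ⟨q, hq, hqp⟩ := h1
    have : q = p := φ.injective hqp
    rw [this, hS, mem_filter] at hq
    exact hq.2 hp
  · exact h p hp

theorem not_dist_two {d : ℕ} (c : Arc → Fin d) (i : Fin d)
    (hc : (univ.filter (fun v => c v ≠ i)).card ≤ 2) : ¬ IsDistinguishing tk c := by
  intro hd
  obtain ⟨x, y, hxy, h⟩ := exists_two_missing _ hc
  obtain ⟨v, hv⟩ := ind_ne (Equiv.swap x y) (by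
    intro h1
    have := congrArg (fun σ => σ x) h1
    simp only [Equiv.swap_apply_left, Equiv.Perm.coe_one, id_eq] at this
    exact hxy this.symm)
  apply hv
  apply hd
  apply preserves c i
  intro p hp
  have h1 := h p (by rw [mem_filter]; exact ⟨mem_univ _, hp⟩)
  have h2 : ind (Equiv.swap x y) p = p := by
    apply Subtype.ext
    rw [ind_apply, Equiv.swap_apply_of_ne_of_ne h1.1 h1.2.2.1,
      Equiv.swap_apply_of_ne_of_ne h1.2.1 h1.2.2.2]
  rw [h2]

theorem not_fixing_two (S : Finset Arc) (hc : S.card ≤ 2) : ¬ IsFixing tk S := by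
  intro hd
  obtain ⟨x, y, hxy, h⟩ := exists_two_missing _ hc
  obtain ⟨v, hv⟩ := ind_ne (Equiv.swap x y) (by
    intro h1
    have := congrArg (fun σ => σ x) h1
    simp only [Equiv.swap_apply_left, Equiv.Perm.coe_one, id_eq] at this
    exact hxy this.symm)
  apply hv
  apply hd
  intro p hp
  have h1 := h p hp
  apply Subtype.ext
  rw [ind_apply, Equiv.swap_apply_of_ne_of_ne h1.1 h1.2.2.1,
    Equiv.swap_apply_of_ne_of_ne h1.2.1 h1.2.2.2]

/-- the key swap: two equally coloured disjoint arcs `p`, `q` and a third arc `r` disjoint from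
them. -/
theorem swap_two {d : ℕ} (c : Arc → Fin d) (i : Fin d) (p q r : Arc)
    (hS : ∀ v, c v ≠ i → v = p ∨ v = q ∨ v = r) (hpq : c p = c q)
    (hn : [p.1.1, p.1.2, q.1.1, q.1.2, r.1.1, r.1.2].Nodup) : ¬ IsDistinguishing tk c := by
  intro hd
  simp only [List.nodup_cons, List.mem_cons, List.not_mem_nil, or_false, not_or] at hn
  obtain ⟨⟨h1, h2, h3, h4, h5⟩, ⟨h6, h7, h8, h9⟩, ⟨h10, h11, h12⟩, ⟨h13, h14⟩, h15, -⟩ := hn
  set σ : Equiv.Perm (Fin 7) := Equiv.swap p.1.1 q.1.1 * Equiv.swap p.1.2 q.1.2 with hσ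
  have e1 : σ p.1.1 = q.1.1 := by
    rw [hσ, Equiv.Perm.mul_apply, Equiv.swap_apply_of_ne_of_ne h1 h3, Equiv.swap_apply_left]
  have e2 : σ p.1.2 = q.1.2 := by
    rw [hσ, Equiv.Perm.mul_apply, Equiv.swap_apply_left,
      Equiv.swap_apply_of_ne_of_ne (Ne.symm h3) (Ne.symm h10)]
  have e3 : σ q.1.1 = p.1.1 := by
    rw [hσ, Equiv.Perm.mul_apply, Equiv.swap_apply_of_ne_of_ne (Ne.symm h6) h10,
      Equiv.swap_apply_right]
  have e4 : σ q.1.2 = p.1.2 := by
    rw [hσ, Equiv.Perm.mul_apply, Equiv.swap_apply_right,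
      Equiv.swap_apply_of_ne_of_ne (Ne.symm h1) h6]
  have e5 : σ r.1.1 = r.1.1 := by
    rw [hσ, Equiv.Perm.mul_apply, Equiv.swap_apply_of_ne_of_ne (Ne.symm h8) (Ne.symm h13),
      Equiv.swap_apply_of_ne_of_ne (Ne.symm h4) (Ne.symm h11)]
  have e6 : σ r.1.2 = r.1.2 := by
    rw [hσ, Equiv.Perm.mul_apply, Equiv.swap_apply_of_ne_of_ne (Ne.symm h9) (Ne.symm h14),
      Equiv.swap_apply_of_ne_of_ne (Ne.symm h5) (Ne.symm h12)]
  obtain ⟨v, hv⟩ := ind_ne σ (by
    intro h
    rw [h] at e1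
    simp only [Equiv.Perm.coe_one, id_eq] at e1
    exact h2 e1)
  apply hv
  apply hd
  apply preserves c i
  intro v hv
  rcases hS v hv with rfl | rfl | rfl
  · have : ind σ v = q := Subtype.ext (by rw [ind_apply, e1, e2])
    rw [this, hpq]
  · have : ind σ v = p := Subtype.ext (by rw [ind_apply, e3, e4])
    rw [this, hpq]
  · have : ind σ v = v := Subtype.ext (by rw [ind_apply, e5, e6])
    rw [this]

theorem not_dist_three {d : ℕ} (hd3 : d ≤ 3) (c : Arc → Fin d) (i : Fin d)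
    (hc : (univ.filter (fun v => c v ≠ i)).card ≤ 3) : ¬ IsDistinguishing tk c := by
  classical
  rcases Nat.lt_or_ge ((univ.filter (fun v => c v ≠ i)).card) 3 with h | h
  · exact not_dist_two c i (by omega)
  have h3 : (univ.filter (fun v => c v ≠ i)).card = 3 := le_antisymm hc h
  obtain ⟨p, q, r, hpq, hpr, hqr, hS⟩ := card_eq_three.mp h3
  have hp : c p ≠ i := by
    have : p ∈ univ.filter (fun v => c v ≠ i) := by rw [hS]; simp
    exact (mem_filter.mp this).2
  have hq : c q ≠ i := by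
    have : q ∈ univ.filter (fun v => c v ≠ i) := by rw [hS]; simp
    exact (mem_filter.mp this).2
  have hr : c r ≠ i := by
    have : r ∈ univ.filter (fun v => c v ≠ i) := by rw [hS]; simp
    exact (mem_filter.mp this).2
  have hall : ∀ v, c v ≠ i → v = p ∨ v = q ∨ v = r := by
    intro v hv
    have : v ∈ univ.filter (fun v => c v ≠ i) := mem_filter.mpr ⟨mem_univ _, hv⟩
    rw [hS] at this
    simpa using this
  set L : List (Fin 7) := [p.1.1, p.1.2, q.1.1, q.1.2, r.1.1, r.1.2] with hL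
  by_cases hn : L.Nodup
  · have hcol : c p = c q ∨ c q = c r ∨ c p = c r := by
      have h1 := (c p).2
      have h2 := (c q).2
      have h3 := (c r).2
      have h4 := i.2
      rw [Fin.ext_iff, Fin.ext_iff, Fin.ext_iff]
      rw [ne_eq, Fin.ext_iff] at hp hq hr
      omega
    rcases hcol with h | h | h
    · exact swap_two c i p q r hall h hn
    · refine swap_two c i q r p (fun v hv => ?_) h ?_
      · rcases hall v hv with h | h | h <;> simp [h]
      · rw [hL] at hn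
        have : [q.1.1, q.1.2, r.1.1, r.1.2, p.1.1, p.1.2].Perm
            [p.1.1, p.1.2, q.1.1, q.1.2, r.1.1, r.1.2] :=
          List.perm_append_comm (l₁ := [q.1.1, q.1.2, r.1.1, r.1.2]) (l₂ := [p.1.1, p.1.2])
        exact this.nodup_iff.mpr hn
    · refine swap_two c i r p q (fun v hv => ?_) h.symm ?_
      · rcases hall v hv with h | h | h <;> simp [h]
      · rw [hL] at hn
        have : [r.1.1, r.1.2, p.1.1, p.1.2, q.1.1, q.1.2].Perm
            [p.1.1, p.1.2, q.1.1, q.1.2, r.1.1, r.1.2] :=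
          List.perm_append_comm (l₁ := [r.1.1, r.1.2]) (l₂ := [p.1.1, p.1.2, q.1.1, q.1.2])
        exact this.nodup_iff.mpr hn
  · -- some endpoint repeats: two vertices are missed
    have h6 : L.toFinset.card ≤ 5 := by
      have h7 : L.toFinset.card ≤ L.length := List.toFinset_card_le L
      have h8 : L.toFinset.card ≠ L.length := by
        intro h
        exact hn (Multiset.toFinset_card_eq_card_iff_nodup (m := (L : Multiset (Fin 7))).mp h)
      have h9 : L.length = 6 := rfl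
      omega
    have h2 : 1 < (L.toFinset)ᶜ.card := by
      rw [card_compl, Fintype.card_fin]; omega
    obtain ⟨x, hx, y, hy, hxy⟩ := one_lt_card.mp h2
    rw [mem_compl, List.mem_toFinset, hL] at hx hy
    simp only [List.mem_cons, List.not_mem_nil, or_false, not_or] at hx hy
    intro hd
    obtain ⟨v, hv⟩ := ind_ne (Equiv.swap x y) (by
      intro h1
      have := congrArg (fun σ => σ x) h1
      simp only [Equiv.swap_apply_left, Equiv.Perm.coe_one, id_eq] at this
      exact hxy this.symm)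
    apply hv
    apply hd
    apply preserves c i
    intro v hv
    have h2 : ind (Equiv.swap x y) v = v := by
      apply Subtype.ext
      rw [ind_apply]
      rcases hall v hv with rfl | rfl | rfl
      · rw [Equiv.swap_apply_of_ne_of_ne (Ne.symm hx.1) (Ne.symm hy.1),
          Equiv.swap_apply_of_ne_of_ne (Ne.symm hx.2.1) (Ne.symm hy.2.1)]
      · rw [Equiv.swap_apply_of_ne_of_ne (Ne.symm hx.2.2.1) (Ne.symm hy.2.2.1),
          Equiv.swap_apply_of_ne_of_ne (Ne.symm hx.2.2.2.1) (Ne.symm hy.2.2.2.1)]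
      · rw [Equiv.swap_apply_of_ne_of_ne (Ne.symm hx.2.2.2.2.1) (Ne.symm hy.2.2.2.2.1),
          Equiv.swap_apply_of_ne_of_ne (Ne.symm hx.2.2.2.2.2) (Ne.symm hy.2.2.2.2.2)]
    rw [h2]

/-- the colouring with four arcs in the second colour. -/
def c2 (p : Arc) : Fin 2 :=
  if p.1 = (1, 2) ∨ p.1 = (3, 4) ∨ p.1 = (4, 5) ∨ p.1 = (5, 6) then 1 else 0

/-- the same colouring with three colours. -/
def c3 (p : Arc) : Fin 3 :=
  if p.1 = (1, 2) ∨ p.1 = (3, 4) ∨ p.1 = (4, 5) ∨ p.1 = (5, 6) then 1 else 0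

/-- the colouring with three arcs in three different colours. -/
def c4 (p : Arc) : Fin 4 :=
  if p.1 = (1, 2) then 1 else if p.1 = (3, 4) then 2 else if p.1 = (5, 6) then 3 else 0

theorem path_fix : ∀ a3 a4 a5 a6 : Fin 7,
    ((a3, a4) = ((1, 2) : Fin 7 × Fin 7) ∨ (a3, a4) = ((3, 4) : Fin 7 × Fin 7) ∨
      (a3, a4) = ((4, 5) : Fin 7 × Fin 7) ∨ (a3, a4) = ((5, 6) : Fin 7 × Fin 7)) →
    ((a4, a5) = ((1, 2) : Fin 7 × Fin 7) ∨ (a4, a5) = ((3, 4) : Fin 7 × Fin 7) ∨
      (a4, a5) = ((4, 5) : Fin 7 × Fin 7) ∨ (a4, a5) = ((5, 6) : Fin 7 × Fin 7)) →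
    ((a5, a6) = ((1, 2) : Fin 7 × Fin 7) ∨ (a5, a6) = ((3, 4) : Fin 7 × Fin 7) ∨
      (a5, a6) = ((4, 5) : Fin 7 × Fin 7) ∨ (a5, a6) = ((5, 6) : Fin 7 × Fin 7)) →
    a3 = 3 ∧ a4 = 4 ∧ a5 = 5 ∧ a6 = 6 := by
  intro a3 a4 a5 a6 h1 h2 h3
  simp only [Prod.mk.injEq] at h1 h2 h3
  rcases h1 with ⟨rfl, rfl⟩ | ⟨rfl, rfl⟩ | ⟨rfl, rfl⟩ | ⟨rfl, rfl⟩ <;>
  rcases h2 with ⟨h2, h2'⟩ | ⟨h2, h2'⟩ | ⟨h2, h2'⟩ | ⟨h2, h2'⟩ <;>
  first
  | (exact absurd h2 (by decide))
  | (subst h2'
     rcases h3 with ⟨h3, h3'⟩ | ⟨h3, h3'⟩ | ⟨h3, h3'⟩ | ⟨h3, h3'⟩ <;>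
     first
     | (exact absurd h3 (by decide))
     | (subst h3'; decide))

theorem fix_of (φ : tk ≃g tk) (σ : Fin 7 → Fin 7) (hσ : Function.Injective σ)
    (h : ∀ p : Arc, (φ p).1 = (σ p.1.1, σ p.1.2)) (h1 : σ 1 = 1) (h2 : σ 2 = 2) (h3 : σ 3 = 3)
    (h4 : σ 4 = 4) (h5 : σ 5 = 5) (h6 : σ 6 = 6) : ∀ v, φ v = v := by
  have h0 : σ 0 = 0 := by
    have e1 : σ 0 ≠ 1 := fun h => absurd (hσ (h.trans h1.symm)) (by decide)
    have e2 : σ 0 ≠ 2 := fun h => absurd (hσ (h.trans h2.symm)) (by decide)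
    have e3 : σ 0 ≠ 3 := fun h => absurd (hσ (h.trans h3.symm)) (by decide)
    have e4 : σ 0 ≠ 4 := fun h => absurd (hσ (h.trans h4.symm)) (by decide)
    have e5 : σ 0 ≠ 5 := fun h => absurd (hσ (h.trans h5.symm)) (by decide)
    have e6 : σ 0 ≠ 6 := fun h => absurd (hσ (h.trans h6.symm)) (by decide)
    have key : ∀ x : Fin 7, x ≠ 1 → x ≠ 2 → x ≠ 3 → x ≠ 4 → x ≠ 5 → x ≠ 6 → x = 0 := by
      intro x
      fin_cases x <;> decide
    exact key _ e1 e2 e3 e4 e5 e6
  have hid : ∀ i, σ i = i := by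
    intro i
    fin_cases i
    · exact h0
    · exact h1
    · exact h2
    · exact h3
    · exact h4
    · exact h5
    · exact h6
  intro v
  apply Subtype.ext
  rw [h, hid, hid]

theorem four_arcs (φ : tk ≃g tk)
    (h : ∀ p : Arc, (p.1 = (1, 2) ∨ p.1 = (3, 4) ∨ p.1 = (4, 5) ∨ p.1 = (5, 6)) →
      ((φ p).1 = (1, 2) ∨ (φ p).1 = (3, 4) ∨ (φ p).1 = (4, 5) ∨ (φ p).1 = (5, 6))) :
    ∀ v, φ v = v := by
  obtain ⟨σ, hσ, hφ⟩ := aut_form φ
  have e12 := h ⟨(1, 2), by decide⟩ (by simp)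
  have e34 := h ⟨(3, 4), by decide⟩ (by simp)
  have e45 := h ⟨(4, 5), by decide⟩ (by simp)
  have e56 := h ⟨(5, 6), by decide⟩ (by simp)
  rw [hφ] at e12 e34 e45 e56
  simp only at e12 e34 e45 e56
  obtain ⟨h3, h4, h5, h6⟩ := path_fix _ _ _ _ e34 e45 e56
  have h12 : σ 1 = 1 ∧ σ 2 = 2 := by
    simp only [Prod.mk.injEq] at e12
    rcases e12 with h | h | h | h
    · exact h
    · exact absurd (hσ (h.1.trans h3.symm)) (by decide)
    · exact absurd (hσ (h.1.trans h4.symm)) (by decide)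
    · exact absurd (hσ (h.1.trans h5.symm)) (by decide)
  exact fix_of φ σ hσ hφ h12.1 h12.2 h3 h4 h5 h6

theorem c2_dist : IsDistinguishing tk c2 := by
  intro φ hφ
  apply four_arcs
  intro p hp
  have h1 := hφ p
  have h2 : c2 p = 1 := if_pos hp
  rw [h2] at h1
  by_contra hne
  have h3 : c2 (φ p) = 0 := if_neg hne
  rw [h3] at h1
  exact absurd h1 (by decide)

theorem c3_dist : IsDistinguishing tk c3 := by
  intro φ hφ
  apply four_arcs
  intro p hp
  have h1 := hφ p
  have h2 : c3 p = 1 := if_pos hp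
  rw [h2] at h1
  by_contra hne
  have h3 : c3 (φ p) = 0 := if_neg hne
  rw [h3] at h1
  exact absurd h1 (by decide)

theorem fix_three : IsFixing tk {⟨(1, 2), by decide⟩, ⟨(3, 4), by decide⟩,
    ⟨(5, 6), by decide⟩} := by
  intro φ hφ
  obtain ⟨σ, hσ, hφ'⟩ := aut_form φ
  have e12 := congrArg Subtype.val (hφ ⟨(1, 2), by decide⟩ (by simp))
  have e34 := congrArg Subtype.val (hφ ⟨(3, 4), by decide⟩ (by simp))
  have e56 := congrArg Subtype.val (hφ ⟨(5, 6), by decide⟩ (by simp))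
  rw [hφ'] at e12 e34 e56
  simp only [Prod.mk.injEq] at e12 e34 e56
  exact fix_of φ σ hσ hφ' e12.1 e12.2 e34.1 e34.2 e56.1 e56.2

theorem c4_dist : IsDistinguishing tk c4 := by
  intro φ hφ
  apply fix_three
  intro v hv
  have h1 := hφ v
  simp only [mem_insert, mem_singleton] at hv
  rcases hv with rfl | rfl | rfl
  · have h2 : c4 ⟨(1, 2), by decide⟩ = 1 := by decide
    rw [h2] at h1
    apply Subtype.ext
    by_contra hne
    simp only [c4] at h1
    rw [if_neg hne] at h1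
    split_ifs at h1 <;> exact absurd h1 (by decide)
  · have h2 : c4 ⟨(3, 4), by decide⟩ = 2 := by decide
    rw [h2] at h1
    apply Subtype.ext
    by_contra hne
    simp only [c4] at h1
    rw [if_neg hne] at h1
    split_ifs at h1 <;> exact absurd h1 (by decide)
  · have h2 : c4 ⟨(5, 6), by decide⟩ = 3 := by decide
    rw [h2] at h1
    apply Subtype.ext
    by_contra hne
    simp only [c4] at h1
    rw [if_neg hne] at h1
    split_ifs at h1 <;> exact absurd h1 (by decide)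

theorem dist_eq : distNumber tk = 2 := by
  apply le_antisymm
  · exact Nat.sInf_le ⟨c2, c2_dist⟩
  · refine le_csInf (s := {d | ∃ c : Arc → Fin d, IsDistinguishing tk c}) ⟨2, c2, c2_dist⟩ ?_
    rintro d ⟨c, hc⟩
    by_contra hlt
    push Not at hlt
    have hd : 0 < d := lt_of_le_of_lt (Nat.zero_le _) (c ⟨(0, 1), by decide⟩).2
    have hd1 : d = 1 := by omega
    subst hd1
    apply not_dist_two c 0 _ hc
    have : (univ.filter (fun v => c v ≠ 0)) = ∅ := by
      rw [filter_eq_empty_iff]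
      intro v _
      rw [not_not]
      exact Subsingleton.elim _ _
    rw [this]
    simp

theorem fix_eq : fixNumber tk = 3 := by
  apply le_antisymm
  · exact Nat.sInf_le ⟨_, fix_three, by decide⟩
  · refine le_csInf (s := {m | ∃ S : Finset Arc, IsFixing tk S ∧ S.card = m}) ⟨3, _, fix_three, by decide⟩ ?_
    rintro m ⟨S, hS, rfl⟩
    by_contra hlt
    exact not_fixing_two S (by omega) hS

theorem paint_two : paintCost tk 2 = 4 := by
  have hmem : 4 ∈ {m | ∃ (c : Arc → Fin 2) (i : Fin 2), IsDistinguishing tk c ∧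
      (univ.filter (fun v => c v ≠ i)).card = m} :=
    ⟨c2, 0, c2_dist, by decide +kernel⟩
  apply le_antisymm
  · exact Nat.sInf_le hmem
  · apply le_csInf ⟨4, hmem⟩
    rintro m ⟨c, i, hc, rfl⟩
    by_contra hlt
    exact not_dist_three (by norm_num) c i (by omega) hc

theorem paint_three : paintCost tk 3 = 4 := by
  have hmem : 4 ∈ {m | ∃ (c : Arc → Fin 3) (i : Fin 3), IsDistinguishing tk c ∧
      (univ.filter (fun v => c v ≠ i)).card = m} :=
    ⟨c3, 0, c3_dist, by decide +kernel⟩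
  apply le_antisymm
  · exact Nat.sInf_le hmem
  · apply le_csInf ⟨4, hmem⟩
    rintro m ⟨c, i, hc, rfl⟩
    by_contra hlt
    exact not_dist_three (by norm_num) c i (by omega) hc

theorem paint_four : paintCost tk 4 = 3 := by
  have hmem : 3 ∈ {m | ∃ (c : Arc → Fin 4) (i : Fin 4), IsDistinguishing tk c ∧
      (univ.filter (fun v => c v ≠ i)).card = m} :=
    ⟨c4, 0, c4_dist, by decide +kernel⟩
  apply le_antisymm
  · exact Nat.sInf_le hmem
  · apply le_csInf ⟨3, hmem⟩
    rintro m ⟨c, i, hc, rfl⟩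
    by_contra hlt
    exact not_dist_two c i (by omega) hc

theorem frugal_eq : frugalNumber tk = 4 := by
  have hmem : 4 ∈ {d | distNumber tk ≤ d ∧ paintCost tk d = fixNumber tk} := by
    refine ⟨?_, ?_⟩
    · rw [dist_eq]; norm_num
    · rw [paint_four, fix_eq]
  apply le_antisymm
  · exact Nat.sInf_le hmem
  · apply le_csInf ⟨4, hmem⟩
    rintro d ⟨h1, h2⟩
    rw [dist_eq] at h1
    by_contra hlt
    have : d = 2 ∨ d = 3 := by omega
    rcases this with rfl | rfl
    · rw [paint_two, fix_eq] at h2; omega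
    · rw [paint_three, fix_eq] at h2; omega

/-- There is a graph `G` (with `D(G) = 2`, `Fix(G) = 3`, `F(G) = 4`) whose paint costs are
`ρ²(G) = ρ³(G) = 4` and `ρ⁴(G) = 3`. Hence `ρ^{D(G)}(G) = ρ^{D(G)+1}(G) ≠ Fix(G)`, and
`ρ^i(G) = ρ^{i+1}(G)` for some `i` with `D(G) ≤ i` and `i + 1 < F(G)`. -/
theorem result :
    ∃ (V : Type) (_ : Fintype V) (G : SimpleGraph V),
      (distNumber G = 2 ∧ fixNumber G = 3 ∧ frugalNumber G = 4 ∧
        paintCost G 2 = 4 ∧ paintCost G 3 = 4 ∧ paintCost G 4 = 3) ∧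
      (∃ i : ℕ, distNumber G ≤ i ∧ i + 1 < frugalNumber G ∧
        paintCost G i = paintCost G (i + 1)) ∧
      (paintCost G (distNumber G) = paintCost G (distNumber G + 1) ∧
        paintCost G (distNumber G) ≠ fixNumber G) := by
  refine ⟨Arc, inferInstance, tk, ⟨dist_eq, fix_eq, frugal_eq, paint_two, paint_three,
    paint_four⟩, ⟨2, ?_, ?_, ?_⟩, ?_, ?_⟩
  · rw [dist_eq]
  · rw [frugal_eq]; norm_num
  · rw [paint_two, paint_three]
  · rw [dist_eq, paint_two, paint_three]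
  · rw [dist_eq, paint_two, fix_eq]; norm_num

end Pool.Agent.Results.MP_8484b9_co.TruncatedK7
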